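import Mathlib

set_option autoImplicit false

open Finset

namespace Pool.Agent.W_MP_6dfbfb_co

/-- A triangular choice multigraph on a finite vertex set `V`: every three-element subset `T`
of `V` selects one of the pairs (two-element subsets) contained in it. (The values of `sel` on
sets which do not have three elements play no role.) -/
structure TCM (V : Type*) where
  /-- the selected pair of a triple -/
  sel : Finset V → Finset V
  sel_subset : ∀ T : Finset V, T.card = 3 → sel T ⊆ T
  card_sel : ∀ T : Finset V, T.card = 3 → (sel T).card = 2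

variable {V : Type*} [DecidableEq V]

/-- `TwoRecursiveOn G S`: the selections made by `G` at the triples contained in `S` form a
2-recursive triangular choice multigraph on `S`. -/
inductive TwoRecursiveOn (G : TCM V) : Finset V → Prop
  | small (S : Finset V) (hS : S.card ≤ 2) : TwoRecursiveOn G S
  | split (S₁ S₂ : Finset V) (hne₁ : S₁.Nonempty) (hne₂ : S₂.Nonempty)
      (hdisj : Disjoint S₁ S₂)
      (h₁ : TwoRecursiveOn G S₁) (h₂ : TwoRecursiveOn G S₂)
      (h₁₂ : ∀ x ∈ S₁, ∀ y ∈ S₁, x ≠ y → ∀ z ∈ S₂, G.sel {x, y, z} = {x, y})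
      (h₂₁ : ∀ x ∈ S₂, ∀ y ∈ S₂, x ≠ y → ∀ z ∈ S₁, G.sel {x, y, z} = {x, y}) :
      TwoRecursiveOn G (S₁ ∪ S₂)

/-- the multiplicity of a pair `e`: the number of triples which selected `e` -/
def mult [Fintype V] (G : TCM V) (e : Finset V) : ℕ :=
  ((univ : Finset (Finset V)).filter fun T => T.card = 3 ∧ G.sel T = e).card

/-- `w(G, α)`: the sum over all pairs `e` of vertices of `α` to the multiplicity of `e` -/
noncomputable def weight [Fintype V] (G : TCM V) (α : ℝ) : ℝ :=
  ∑ e ∈ (univ : Finset V).powersetCard 2, α ^ mult G e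

/-- the weights of all triangular choice multigraphs on `m` vertices -/
def weights (m : ℕ) (α : ℝ) : Set ℝ :=
  {x | ∃ G : TCM (Fin m), x = weight G α}

/-- the weights of all 2-recursive triangular choice multigraphs on `m` vertices -/
def weights₂ (m : ℕ) (α : ℝ) : Set ℝ :=
  {x | ∃ G : TCM (Fin m), TwoRecursiveOn G univ ∧ x = weight G α}

/-- `H(m, α)`: the maximum weight of a triangular choice multigraph on `m` vertices -/
noncomputable def H (m : ℕ) (α : ℝ) : ℝ := sSup (weights m α)

/-- `H₂(m, α)`: the maximum weight of a 2-recursive triangular choice multigraph -/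
noncomputable def H₂ (m : ℕ) (α : ℝ) : ℝ := sSup (weights₂ m α)

end Pool.Agent.W_MP_6dfbfb_co
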