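import Mathlib

set_option autoImplicit false

open Finset

namespace Pool.Agent.W_MP_6dfbfb_co

section basic

theorem pow_sub_one_ge {α : ℝ} (hα : 1 ≤ α) (n : ℕ) : (n : ℝ) * (α - 1) ≤ α ^ n - 1 := by
  have h := one_add_mul_le_pow (a := α - 1) (by linarith) n
  have : 1 + (α - 1) = α := by ring
  rw [this] at h
  linarith

theorem pow_sub_one_le {α : ℝ} (hα : 1 ≤ α) (n : ℕ) : α ^ n - 1 ≤ (n : ℝ) * (α - 1) * α ^ n := by
  induction n with
  | zero => simp
  | succ n ih =>
    have h1 : (1 : ℝ) ≤ α ^ n := one_le_pow₀ hα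
    have h2 : (0 : ℝ) ≤ α - 1 := by linarith
    have h3 : (0 : ℝ) ≤ (n : ℝ) * (α - 1) * α ^ n := by positivity
    push_cast
    have e : α ^ (n + 1) = α ^ n * α := pow_succ _ _
    rw [e]
    nlinarith [mul_nonneg h2 h3, mul_nonneg h2 (by linarith : (0 : ℝ) ≤ α ^ n - 1),
      mul_nonneg h2 (by positivity : (0 : ℝ) ≤ α ^ n), mul_nonneg (mul_nonneg h2 h2) (by positivity : (0 : ℝ) ≤ α ^ n)]

/-- weighted convexity -/
theorem convex_aux {α : ℝ} (hα : 1 ≤ α) (p q : ℕ) :
    ((p : ℝ) + q) * α ^ p ≤ p * α ^ (p + q) + q := by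
  have h1 : (1 : ℝ) ≤ α ^ p := one_le_pow₀ hα
  have h2 : (0 : ℝ) ≤ α - 1 := by linarith
  have hq := pow_sub_one_ge hα q
  have hp := pow_sub_one_le hα p
  rw [pow_add]
  have hp0 : (0 : ℝ) ≤ p := Nat.cast_nonneg p
  have hq0 : (0 : ℝ) ≤ q := Nat.cast_nonneg q
  have hpos : (0 : ℝ) ≤ α ^ p := by positivity
  have a1 : (p : ℝ) * α ^ p * ((q : ℝ) * (α - 1)) ≤ p * α ^ p * (α ^ q - 1) :=
    mul_le_mul_of_nonneg_left hq (by positivity)
  have a2 : (q : ℝ) * (α ^ p - 1) ≤ q * ((p : ℝ) * (α - 1) * α ^ p) :=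
    mul_le_mul_of_nonneg_left hp hq0
  nlinarith [a1, a2]

theorem convex_term {α : ℝ} (hα : 1 ≤ α) (p q a e e' : ℕ) (he : e ≤ 1) (he' : e' ≤ 1) :
    ((p : ℝ) + q) * α ^ (a + e * p + e' * q) ≤
      p * α ^ (a + e * (p + q)) + q * α ^ (a + e' * (p + q)) := by
  have h0 : (0 : ℝ) ≤ α ^ a := by positivity
  interval_cases e <;> interval_cases e'
  · simp only [zero_mul, add_zero]; linarith
  · have h := mul_le_mul_of_nonneg_left (convex_aux hα q p) h0
    simp only [zero_mul, add_zero, one_mul, pow_add] at h ⊢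
    nlinarith [h]
  · have h := mul_le_mul_of_nonneg_left (convex_aux hα p q) h0
    simp only [zero_mul, add_zero, one_mul, pow_add] at h ⊢
    nlinarith [h]
  · simp only [one_mul]
    rw [show a + p + q = a + (p + q) by ring]
    linarith

end basic

variable {ι : Type*} [DecidableEq ι]

/-- weighted multiplicity of the pair `i j` -/
def M (ε : ι → ι → ι → ℕ) (p : ι → ℕ) (s : Finset ι) (i j : ι) : ℕ :=
  ∑ k ∈ s, ε i j k * p k

/-- total weight of a weighted structure -/
noncomputable def W (α : ℝ) (ε : ι → ι → ι → ℕ) (p : ι → ℕ) (A : ι → ℝ) (s : Finset ι) : ℝ :=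
  (∑ i ∈ s, α ^ (∑ k ∈ s.erase i, p k) * A i) +
    (1 / 2) * ∑ i ∈ s, ∑ j ∈ s.erase i, (p i : ℝ) * p j * α ^ (M ε p s i j)

theorem M_insert (ε : ι → ι → ι → ℕ) (p : ι → ℕ) (R : Finset ι) (z : ι) (hz : z ∉ R) (i j : ι) :
    M ε p (insert z R) i j = M ε p R i j + ε i j z * p z := by
  unfold M
  rw [sum_insert hz]; ring

structure Good (ε : ι → ι → ι → ℕ) : Prop where
  le_one : ∀ i j k, ε i j k ≤ 1
  symm : ∀ i j k, ε i j k = ε j i k
  left : ∀ i j, ε i j i = 0
  right : ∀ i j, ε i j j = 0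
  one : ∀ i j k, ε i j k + ε i k j + ε j k i ≤ 1

omit [DecidableEq ι] in
theorem M_symm {ε : ι → ι → ι → ℕ} (hε : Good ε) (p : ι → ℕ) (s : Finset ι) (i j : ι) :
    M ε p s i j = M ε p s j i := by
  unfold M
  exact sum_congr rfl fun k _ => by rw [hε.symm i j k]

/-- expansion of `W` on `insert z R` -/
theorem W_insert (α : ℝ) {ε : ι → ι → ι → ℕ} (hε : Good ε) (p : ι → ℕ) (A : ι → ℝ)
    (R : Finset ι) (z : ι) (hz : z ∉ R) :
    W α ε p A (insert z R) =
      α ^ (∑ k ∈ R, p k) * A z + (∑ i ∈ R, α ^ (p z + ∑ k ∈ R.erase i, p k) * A i) +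
      (1 / 2) * (∑ i ∈ R, ∑ j ∈ R.erase i, (p i : ℝ) * p j * α ^ (M ε p R i j + ε i j z * p z)) +
      ∑ j ∈ R, (p z : ℝ) * p j * α ^ (M ε p R z j) := by
  unfold W
  rw [sum_insert hz, sum_insert hz, erase_insert hz]
  have e1 : ∀ i ∈ R, (insert z R).erase i = insert z (R.erase i) := by
    intro i hi
    rw [erase_insert_of_ne]
    rintro rfl; exact hz hi
  have hzi : ∀ i, z ∉ R.erase i := fun i h => hz (mem_of_mem_erase h)
  have s1 : ∑ i ∈ R, α ^ (∑ k ∈ (insert z R).erase i, p k) * A i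
      = ∑ i ∈ R, α ^ (p z + ∑ k ∈ R.erase i, p k) * A i := by
    refine sum_congr rfl fun i hi => ?_
    rw [e1 i hi, sum_insert (hzi i)]
  have s2 : ∑ j ∈ R, (p z : ℝ) * p j * α ^ (M ε p (insert z R) z j)
      = ∑ j ∈ R, (p z : ℝ) * p j * α ^ (M ε p R z j) := by
    refine sum_congr rfl fun j hj => ?_
    rw [M_insert _ _ _ _ hz, hε.left]; simp
  have s3 : ∑ i ∈ R, ∑ j ∈ (insert z R).erase i, (p i : ℝ) * p j * α ^ (M ε p (insert z R) i j)
      = (∑ j ∈ R, (p z : ℝ) * p j * α ^ (M ε p R z j)) +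
        ∑ i ∈ R, ∑ j ∈ R.erase i, (p i : ℝ) * p j * α ^ (M ε p R i j + ε i j z * p z) := by
    rw [← sum_add_distrib]
    refine sum_congr rfl fun i hi => ?_
    rw [e1 i hi, sum_insert (hzi i)]
    congr 1
    · rw [M_insert _ _ _ _ hz, hε.right, M_symm hε, zero_mul, add_zero]; ring
    · refine sum_congr rfl fun j hj => ?_
      rw [M_insert _ _ _ _ hz]
  rw [s1, s2, s3]
  ring

/-- expansion of `W` on `insert x (insert y R)` -/
theorem W_insert2 (α : ℝ) {ε : ι → ι → ι → ℕ} (hε : Good ε) (p : ι → ℕ) (A : ι → ℝ)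
    (R : Finset ι) (x y : ι) (hx : x ∉ R) (hy : y ∉ R) (hxy : x ≠ y) :
    W α ε p A (insert x (insert y R)) =
      α ^ (p y + ∑ k ∈ R, p k) * A x + α ^ (p x + ∑ k ∈ R, p k) * A y +
      (∑ i ∈ R, α ^ (p x + p y + ∑ k ∈ R.erase i, p k) * A i) +
      (1 / 2) * (∑ i ∈ R, ∑ j ∈ R.erase i,
        (p i : ℝ) * p j * α ^ (M ε p R i j + ε i j x * p x + ε i j y * p y)) +
      (∑ j ∈ R, (p x : ℝ) * p j * α ^ (M ε p R x j + ε x j y * p y)) +
      (∑ j ∈ R, (p y : ℝ) * p j * α ^ (M ε p R y j + ε y j x * p x)) +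
      (p x : ℝ) * p y * α ^ (M ε p R x y) := by
  have hx' : x ∉ insert y R := by simp [hx, hxy]
  rw [W_insert α hε p A (insert y R) x hx']
  have e1 : ∀ i ∈ R, (insert y R).erase i = insert y (R.erase i) := by
    intro i hi
    rw [erase_insert_of_ne]
    rintro rfl; exact hy hi
  have hyi : ∀ i, y ∉ R.erase i := fun i h => hy (mem_of_mem_erase h)
  rw [sum_insert hy, sum_insert hy, sum_insert hy, sum_insert hy, erase_insert hy]
  have s1 : ∑ i ∈ R, α ^ (p x + ∑ k ∈ (insert y R).erase i, p k) * A i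
      = ∑ i ∈ R, α ^ (p x + p y + ∑ k ∈ R.erase i, p k) * A i := by
    refine sum_congr rfl fun i hi => ?_
    rw [e1 i hi, sum_insert (hyi i), add_assoc]
  have s2 : ∑ j ∈ R, (p y : ℝ) * p j * α ^ (M ε p (insert y R) y j + ε y j x * p x)
      = ∑ j ∈ R, (p y : ℝ) * p j * α ^ (M ε p R y j + ε y j x * p x) := by
    refine sum_congr rfl fun j hj => ?_
    rw [M_insert _ _ _ _ hy, hε.left]; simp
  have s3 : ∑ i ∈ R, ∑ j ∈ (insert y R).erase i,
        (p i : ℝ) * p j * α ^ (M ε p (insert y R) i j + ε i j x * p x)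
      = (∑ j ∈ R, (p y : ℝ) * p j * α ^ (M ε p R y j + ε y j x * p x)) +
        ∑ i ∈ R, ∑ j ∈ R.erase i,
          (p i : ℝ) * p j * α ^ (M ε p R i j + ε i j x * p x + ε i j y * p y) := by
    rw [← sum_add_distrib]
    refine sum_congr rfl fun i hi => ?_
    rw [e1 i hi, sum_insert (hyi i)]
    congr 1
    · rw [M_insert _ _ _ _ hy, hε.right, M_symm hε, hε.symm i y x, zero_mul, add_zero]; ring
    · refine sum_congr rfl fun j hj => ?_
      rw [M_insert _ _ _ _ hy]
      congr 2
      ring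
  have s4 : ∑ j ∈ R, (p x : ℝ) * p j * α ^ (M ε p (insert y R) x j)
      = ∑ j ∈ R, (p x : ℝ) * p j * α ^ (M ε p R x j + ε x j y * p y) := by
    refine sum_congr rfl fun j hj => ?_
    rw [M_insert _ _ _ _ hy]
  have s5 : M ε p (insert y R) x y = M ε p R x y := by
    rw [M_insert _ _ _ _ hy, hε.right]; simp
  rw [s1, s2, s3, s4, s5]
  ring

omit [DecidableEq ι] in
/-- the key gain inequality for merging the classes `x` and `y` -/
theorem gain {α : ℝ} (hα : 1 ≤ α) {ε : ι → ι → ι → ℕ} (hε : Good ε) (p : ι → ℕ)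
    (R : Finset ι) (x y : ι)
    (h1 : ∀ j ∈ R, M ε p R x j + ε x j y * p y ≤ M ε p R x y)
    (h2 : ∀ j ∈ R, M ε p R y j + ε y j x * p x ≤ M ε p R x y) :
    (∑ j ∈ R, (p x : ℝ) * p j * α ^ (M ε p R x j + ε x j y * p y)) +
      (∑ j ∈ R, (p y : ℝ) * p j * α ^ (M ε p R y j + ε y j x * p x)) +
      (p x : ℝ) * p y * α ^ (M ε p R x y) ≤
    (p x : ℝ) * p y * α ^ (∑ k ∈ R, p k) + (∑ j ∈ R, (p x : ℝ) * p j * α ^ (M ε p R x j)) +
      (∑ j ∈ R, (p y : ℝ) * p j * α ^ (M ε p R y j)) := by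
  set μ := M ε p R x y with hμ
  -- the deficiency
  set t := ∑ k ∈ R, (1 - ε x y k) * p k with ht
  have hρ : ∑ k ∈ R, p k = μ + t := by
    rw [hμ, ht]
    unfold M
    rw [← sum_add_distrib]
    refine sum_congr rfl fun k _ => ?_
    rw [← add_mul]
    have := hε.le_one x y k
    rw [Nat.add_sub_cancel' this, one_mul]
  have hα1 : (0 : ℝ) ≤ α - 1 := by linarith
  have hμpos : (0 : ℝ) ≤ α ^ μ := by positivity
  -- termwise bound
  have key : ∀ j ∈ R,
      (p x : ℝ) * p j * α ^ (M ε p R x j + ε x j y * p y) - (p x : ℝ) * p j * α ^ (M ε p R x j) +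
      ((p y : ℝ) * p j * α ^ (M ε p R y j + ε y j x * p x) - (p y : ℝ) * p j * α ^ (M ε p R y j))
      ≤ (p x : ℝ) * p y * (α - 1) * α ^ μ * (((1 - ε x y j) * p j : ℕ) : ℝ) := by
    intro j hj
    have o := hε.one x y j
    have gen : ∀ (b q r : ℕ), b + q ≤ μ →
        (r : ℝ) * p j * α ^ (b + q) - (r : ℝ) * p j * α ^ b ≤
          (r : ℝ) * q * (α - 1) * α ^ μ * p j := by
      intro b q r hb
      have e1 := pow_sub_one_le hα q
      have e2 : α ^ (b + q) ≤ α ^ μ := pow_le_pow_right₀ hα hb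
      have e3 : α ^ (b + q) - α ^ b ≤ q * (α - 1) * α ^ μ := by
        calc α ^ (b + q) - α ^ b = α ^ b * (α ^ q - 1) := by rw [pow_add]; ring
          _ ≤ α ^ b * (q * (α - 1) * α ^ q) := mul_le_mul_of_nonneg_left e1 (by positivity)
          _ = q * (α - 1) * α ^ (b + q) := by rw [pow_add]; ring
          _ ≤ q * (α - 1) * α ^ μ := mul_le_mul_of_nonneg_left e2 (by positivity)
      have := mul_le_mul_of_nonneg_left e3 (by positivity : (0 : ℝ) ≤ (r : ℝ) * p j)
      calc (r : ℝ) * p j * α ^ (b + q) - (r : ℝ) * p j * α ^ b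
          = (r : ℝ) * p j * (α ^ (b + q) - α ^ b) := by ring
        _ ≤ _ := this
        _ = _ := by ring
    have c1 := h1 j hj
    have c2 := h2 j hj
    by_cases a1 : ε x j y = 1
    · have a2 : ε y j x = 0 := by omega
      have a3 : ε x y j = 0 := by omega
      rw [a1, one_mul] at c1
      rw [a1, a2, a3, one_mul, zero_mul, add_zero, sub_self, add_zero, Nat.sub_zero, one_mul]
      have := gen _ _ (p x) c1
      linarith
    · have a1' : ε x j y = 0 := by have := hε.le_one x j y; omega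
      by_cases a2 : ε y j x = 1
      · have a3 : ε x y j = 0 := by omega
        rw [a2, one_mul] at c2
        rw [a1', a2, a3, one_mul, zero_mul, add_zero, sub_self, zero_add, Nat.sub_zero, one_mul]
        have := gen _ _ (p y) c2
        linarith
      · have a2' : ε y j x = 0 := by have := hε.le_one y j x; omega
        rw [a1', a2', zero_mul, add_zero, sub_self, zero_mul, add_zero, sub_self, add_zero]
        positivity
  have hsum := sum_le_sum key
  rw [sum_add_distrib, sum_sub_distrib, sum_sub_distrib, ← mul_sum] at hsum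
  have ht' : (∑ i ∈ R, (((1 - ε x y i) * p i : ℕ) : ℝ)) = (t : ℝ) := by
    rw [ht]; push_cast; rfl
  rw [ht'] at hsum
  have hb := pow_sub_one_ge hα t
  have hfin : (p x : ℝ) * p y * (α - 1) * α ^ μ * (t : ℝ) ≤
      (p x : ℝ) * p y * α ^ (∑ k ∈ R, p k) - (p x : ℝ) * p y * α ^ μ := by
    rw [hρ, pow_add]
    have := mul_le_mul_of_nonneg_left hb (by positivity : (0 : ℝ) ≤ (p x : ℝ) * p y * α ^ μ)
    linarith
  linarith

theorem W_insert_update (α : ℝ) {ε : ι → ι → ι → ℕ} (hε : Good ε) (p : ι → ℕ) (A : ι → ℝ)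
    (R : Finset ι) (z : ι) (hz : z ∉ R) (P : ℕ) (B : ℝ) :
    W α ε (Function.update p z P) (Function.update A z B) (insert z R) =
      α ^ (∑ k ∈ R, p k) * B + (∑ i ∈ R, α ^ (P + ∑ k ∈ R.erase i, p k) * A i) +
      (1 / 2) * (∑ i ∈ R, ∑ j ∈ R.erase i, (p i : ℝ) * p j * α ^ (M ε p R i j + ε i j z * P)) +
      ∑ j ∈ R, (P : ℝ) * p j * α ^ (M ε p R z j) := by
  have hp : ∀ k ∈ R, Function.update p z P k = p k := by
    intro k hk
    rw [Function.update_of_ne]; rintro rfl; exact hz hk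
  have hA : ∀ k ∈ R, Function.update A z B k = A k := by
    intro k hk
    rw [Function.update_of_ne]; rintro rfl; exact hz hk
  have hM : ∀ i j, M ε (Function.update p z P) R i j = M ε p R i j := by
    intro i j
    unfold M
    exact sum_congr rfl fun k hk => by rw [hp k hk]
  rw [W_insert α hε _ _ R z hz, Function.update_self, Function.update_self]
  rw [sum_congr rfl hp]
  congr 1
  · congr 1
    · congr 1
      refine sum_congr rfl fun i hi => ?_
      rw [hA i hi]
      congr 3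
      exact sum_congr rfl fun k hk => hp k (mem_of_mem_erase hk)
    · congr 1
      refine sum_congr rfl fun i hi => sum_congr rfl fun j hj => ?_
      rw [hM, hp i hi, hp j (mem_of_mem_erase hj)]
  · refine sum_congr rfl fun j hj => ?_
    rw [hM, hp j hj]

/-- The weighted bound. -/
theorem W_le {α : ℝ} (hα : 1 ≤ α) {ε : ι → ι → ι → ℕ} (hε : Good ε) (h : ℕ → ℝ)
    (hh : ∀ a b : ℕ, 1 ≤ a → 1 ≤ b → α ^ b * h a + α ^ a * h b + (a : ℝ) * b ≤ h (a + b)) :
    ∀ n : ℕ, ∀ s : Finset ι, s.card = n + 1 → ∀ (p : ι → ℕ) (A : ι → ℝ), (∀ i ∈ s, 1 ≤ p i) →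
      (∀ i ∈ s, A i ≤ h (p i)) → W α ε p A s ≤ h (∑ i ∈ s, p i) := by
  intro n
  induction n with
  | zero =>
    intro s hs p A hp hA
    obtain ⟨i, rfl⟩ := card_eq_one.mp hs
    unfold W
    simpa using hA i (mem_singleton_self i)
  | succ n ih =>
    intro s hs p A hp hA
    have hne : s.offDiag.Nonempty := by
      rw [← card_pos, offDiag_card, hs]
      have : (n + 1 + 1) * (n + 1 + 1) - (n + 1 + 1) = (n + 1 + 1) * (n + 1) := by
        rw [Nat.mul_succ (n + 1 + 1)]; omega
      rw [this]; positivity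
    obtain ⟨⟨x, y⟩, hxy, hmax⟩ := exists_max_image s.offDiag (fun q => M ε p s q.1 q.2) hne
    rw [mem_offDiag] at hxy
    obtain ⟨hxs, hys, hxy⟩ := hxy
    simp only at hxs hys hxy hmax
    set R := (s.erase x).erase y with hR
    have hyR : y ∉ R := notMem_erase _ _
    have hxR : x ∉ R := by
      intro h'; exact notMem_erase x s (mem_of_mem_erase h')
    have hys' : y ∈ s.erase x := mem_erase.mpr ⟨hxy.symm, hys⟩
    have hs_eq : s = insert x (insert y R) := by
      rw [hR, insert_erase hys', insert_erase hxs]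
    have hRs : ∀ j ∈ R, j ∈ s := fun j hj => mem_of_mem_erase (mem_of_mem_erase hj)
    have hcardR : R.card = n := by
      rw [hR, card_erase_of_mem hys', card_erase_of_mem hxs, hs]; rfl
    have hMs : ∀ i j, M ε p s i j = M ε p R i j + ε i j y * p y + ε i j x * p x := by
      intro i j
      rw [hs_eq, M_insert _ _ _ _ (by simp [hxR, hxy]), M_insert _ _ _ _ hyR]
    have hMxy : M ε p s x y = M ε p R x y := by
      rw [hMs, hε.left, hε.right]; ring
    have h1 : ∀ j ∈ R, M ε p R x j + ε x j y * p y ≤ M ε p R x y := by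
      intro j hj
      have hj' : (x, j) ∈ s.offDiag := by
        rw [mem_offDiag]; exact ⟨hxs, hRs j hj, fun (e : x = j) => by subst e; exact hxR hj⟩
      have := hmax (x, j) hj'
      simp only at this
      rw [hMxy, hMs, hε.left] at this
      simpa using this
    have h2 : ∀ j ∈ R, M ε p R y j + ε y j x * p x ≤ M ε p R x y := by
      intro j hj
      have hj' : (y, j) ∈ s.offDiag := by
        rw [mem_offDiag]; exact ⟨hys, hRs j hj, fun (e : y = j) => by subst e; exact hyR hj⟩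
      have := hmax (y, j) hj'
      simp only at this
      rw [hMxy, hMs, hε.left] at this
      simpa using this
    have hg := gain hα hε p R x y h1 h2
    set B : ℝ := α ^ p y * A x + α ^ p x * A y + (p x : ℝ) * p y with hB
    have hpx := hp x hxs
    have hpy := hp y hys
    have hBle : B ≤ h (p x + p y) := by
      refine le_trans ?_ (hh (p x) (p y) hpx hpy)
      have b1 := mul_le_mul_of_nonneg_left (hA x hxs) (by positivity : (0 : ℝ) ≤ α ^ p y)
      have b2 := mul_le_mul_of_nonneg_left (hA y hys) (by positivity : (0 : ℝ) ≤ α ^ p x)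
      rw [hB]; linarith
    have ihgen : ∀ z, z ∉ R → W α ε (Function.update p z (p x + p y)) (Function.update A z B)
        (insert z R) ≤ h (∑ i ∈ s, p i) := by
      intro z hz
      have hp' : ∀ k ∈ R, Function.update p z (p x + p y) k = p k := by
        intro k hk
        rw [Function.update_of_ne]; rintro rfl; exact hz hk
      have hA' : ∀ k ∈ R, Function.update A z B k = A k := by
        intro k hk
        rw [Function.update_of_ne]; rintro rfl; exact hz hk
      have := ih (insert z R) (by rw [card_insert_of_notMem hz, hcardR])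
        (Function.update p z (p x + p y)) (Function.update A z B) ?_ ?_
      · refine this.trans (le_of_eq ?_)
        congr 1
        rw [sum_insert hz, Function.update_self, sum_congr rfl hp']
        rw [hs_eq, sum_insert (by simp [hxR, hxy]), sum_insert hyR]
        ring
      · intro i hi
        rcases mem_insert.mp hi with rfl | hi
        · rw [Function.update_self]; omega
        · rw [hp' i hi]; exact hp i (hRs i hi)
      · intro i hi
        rcases mem_insert.mp hi with rfl | hi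
        · rw [Function.update_self, Function.update_self]; exact hBle
        · rw [hp' i hi, hA' i hi]; exact hA i (hRs i hi)
    have ix := ihgen x hxR
    have iy := ihgen y hyR
    rw [W_insert_update α hε p A R x hxR] at ix
    rw [W_insert_update α hε p A R y hyR] at iy
    have hW := W_insert2 α hε p A R x y hxR hyR hxy
    rw [← hs_eq] at hW
    -- convexity, termwise
    have hconv : ((p x : ℝ) + p y) * (∑ i ∈ R, ∑ j ∈ R.erase i,
          (p i : ℝ) * p j * α ^ (M ε p R i j + ε i j x * p x + ε i j y * p y)) ≤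
        p x * (∑ i ∈ R, ∑ j ∈ R.erase i,
          (p i : ℝ) * p j * α ^ (M ε p R i j + ε i j x * (p x + p y))) +
        p y * (∑ i ∈ R, ∑ j ∈ R.erase i,
          (p i : ℝ) * p j * α ^ (M ε p R i j + ε i j y * (p x + p y))) := by
      rw [mul_sum, mul_sum, mul_sum, ← sum_add_distrib]
      refine sum_le_sum fun i _ => ?_
      rw [mul_sum, mul_sum, mul_sum, ← sum_add_distrib]
      refine sum_le_sum fun j _ => ?_
      have c := convex_term hα (p x) (p y) (M ε p R i j) (ε i j x) (ε i j y)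
        (hε.le_one _ _ _) (hε.le_one _ _ _)
      have := mul_le_mul_of_nonneg_left c (by positivity : (0 : ℝ) ≤ (p i : ℝ) * p j)
      calc ((p x : ℝ) + p y) * ((p i : ℝ) * p j *
            α ^ (M ε p R i j + ε i j x * p x + ε i j y * p y))
          = (p i : ℝ) * p j * (((p x : ℝ) + p y) *
            α ^ (M ε p R i j + ε i j x * p x + ε i j y * p y)) := by ring
        _ ≤ _ := this
        _ = _ := by ring
    have hP : (0 : ℝ) < (p x : ℝ) + p y := by
      have : (0 : ℝ) < p x := by exact_mod_cast hpx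
      positivity
    have hPx : (0 : ℝ) ≤ p x := Nat.cast_nonneg _
    have hPy : (0 : ℝ) ≤ p y := Nat.cast_nonneg _
    have jx := mul_le_mul_of_nonneg_left ix hPx
    have jy := mul_le_mul_of_nonneg_left iy hPy
    have hg' := mul_le_mul_of_nonneg_left hg hP.le
    have sx : ∑ j ∈ R, ((p x + p y : ℕ) : ℝ) * p j * α ^ (M ε p R x j) * p x
        = (p x + p y) * ∑ j ∈ R, (p x : ℝ) * p j * α ^ (M ε p R x j) := by
      rw [mul_sum]; exact sum_congr rfl fun j _ => by push_cast; ring
    have sy : ∑ j ∈ R, ((p x + p y : ℕ) : ℝ) * p j * α ^ (M ε p R y j) * p y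
        = (p x + p y) * ∑ j ∈ R, (p y : ℝ) * p j * α ^ (M ε p R y j) := by
      rw [mul_sum]; exact sum_congr rfl fun j _ => by push_cast; ring
    rw [← sum_mul] at sx sy
    have hmain : ((p x : ℝ) + p y) * W α ε p A s ≤ ((p x : ℝ) + p y) * h (∑ i ∈ s, p i) := by
      rw [hW]
      have eB : ∀ ρ : ℕ, ((p x : ℝ) + p y) * (α ^ (p y + ρ) * A x + α ^ (p x + ρ) * A y)
          + ((p x : ℝ) + p y) * ((p x : ℝ) * p y * α ^ ρ) =
          p x * (α ^ ρ * B) + p y * (α ^ ρ * B) := by
        intro ρ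
        rw [hB, pow_add, pow_add]; ring
      have := eB (∑ k ∈ R, p k)
      nlinarith [this, jx, jy, hg', hconv, sx, sy]
    exact le_of_mul_le_mul_left hmain hP

end Pool.Agent.W_MP_6dfbfb_co
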