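import Mathlib
import Pool.Agent.W_MP_6dfbfb_co.Defs
import Pool.Agent.W_MP_6dfbfb_co.Numeric

set_option autoImplicit false

open Finset

namespace Pool.Agent.W_MP_6dfbfb_co

variable {V : Type*} [DecidableEq V]

/-- indicator that the triple `i j k` selects `{i,j}` -/
def eps (G : TCM V) (i j k : V) : ℕ :=
  if i ≠ j ∧ k ≠ i ∧ k ≠ j ∧ G.sel {i, j, k} = {i, j} then 1 else 0

theorem pair_swap (i j k : V) : ({i, j, k} : Finset V) = {i, k, j} := by
  ext v; simp; tauto

theorem pair_rot (i j k : V) : ({i, j, k} : Finset V) = {j, k, i} := by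
  ext v; simp; tauto

theorem pair_flip (i j k : V) : ({i, j, k} : Finset V) = {j, i, k} := by
  ext v; simp; tauto

theorem eps_good (G : TCM V) : Good (eps G) where
  le_one := by intro i j k; unfold eps; split_ifs <;> simp
  symm := by
    intro i j k
    unfold eps
    rw [pair_flip i j k, pair_comm i j]
    congr 1
    apply propext
    constructor <;> rintro ⟨a, b, c, d⟩ <;> exact ⟨a.symm, c, b, d⟩
  left := by intro i j; simp [eps]
  right := by intro i j; simp [eps]
  one := by
    intro i j k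
    have d1 : ∀ a b c : V, b ≠ c → a ≠ b → ({a, b} : Finset V) ≠ {a, c} := by
      intro a b c hbc hab h
      have : b ∈ ({a, c} : Finset V) := by rw [← h]; simp
      simp only [mem_insert, mem_singleton] at this
      rcases this with h | h
      · exact hab h.symm
      · exact hbc h
    unfold eps
    by_cases h1 : i ≠ j ∧ k ≠ i ∧ k ≠ j ∧ G.sel {i, j, k} = {i, j}
    · rw [if_pos h1]
      obtain ⟨a, b, c, e⟩ := h1
      rw [if_neg, if_neg]
      · rintro ⟨_, _, _, e'⟩
        rw [← pair_rot i j k, e] at e'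
        rw [pair_comm i j] at e'
        exact d1 j i k b.symm a.symm e'
      · rintro ⟨_, _, _, e'⟩
        rw [← pair_swap i j k, e] at e'
        exact d1 i j k c.symm a e'
    · rw [if_neg h1]
      by_cases h2 : i ≠ k ∧ j ≠ i ∧ j ≠ k ∧ G.sel {i, k, j} = {i, k}
      · rw [if_pos h2]
        obtain ⟨a, b, c, e⟩ := h2
        rw [if_neg]
        rintro ⟨_, _, _, e'⟩
        rw [← pair_rot i j k, pair_swap i j k, e] at e'
        rw [pair_comm i k, pair_comm j k] at e'
        exact d1 k i j b.symm a.symm e'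
      · rw [if_neg h2]
        split_ifs <;> simp

/-- twice the weight, restricted to `S` -/
noncomputable def pw (G : TCM V) (α : ℝ) (S : Finset V) : ℝ :=
  ∑ i ∈ S, ∑ j ∈ S.erase i, α ^ (∑ k ∈ S, eps G i j k)

theorem sum_pairs (f : Finset V → ℝ) (s : Finset V) :
    ∑ e ∈ s.powersetCard 2, f e = (1 / 2) * ∑ i ∈ s, ∑ j ∈ s.erase i, f {i, j} := by
  induction s using Finset.induction_on with
  | empty =>
    have : powersetCard 2 (∅ : Finset V) = ∅ := powersetCard_eq_empty.mpr (by simp)
    rw [this]; simp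
  | insert a s ha ih =>
    rw [powersetCard_succ_insert ha, sum_union, sum_image, powersetCard_one, sum_map,
      sum_insert ha, erase_insert ha, ih]
    · have e1 : ∀ i ∈ s, ∑ j ∈ (insert a s).erase i, f {i, j} =
          f {i, a} + ∑ j ∈ s.erase i, f {i, j} := by
        intro i hi
        rw [erase_insert_of_ne (by rintro rfl; exact ha hi), sum_insert]
        intro h; exact ha (mem_of_mem_erase h)
      rw [sum_congr rfl e1, sum_add_distrib]
      have e2 : ∑ i ∈ s, f {i, a} = ∑ i ∈ s, f {a, i} :=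
        sum_congr rfl fun i _ => by rw [pair_comm]
      rw [e2]
      simp only [Function.Embedding.coeFn_mk]
      have e3 : ∑ x ∈ s, f (insert a {x}) = ∑ x ∈ s, f {a, x} := rfl
      rw [e3]
      ring
    · intro x hx y hy h
      have hx' : a ∉ x := fun h' => ha (mem_powersetCard.mp hx |>.1 h')
      have hy' : a ∉ y := fun h' => ha (mem_powersetCard.mp hy |>.1 h')
      rw [← erase_insert hx', ← erase_insert hy', h]
    · rw [disjoint_left]
      intro x hx hx'
      obtain ⟨y, _, rfl⟩ := mem_image.mp hx'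
      exact ha (mem_powersetCard.mp hx |>.1 (mem_insert_self _ _))

theorem mult_pair [Fintype V] (G : TCM V) (i j : V) (hij : i ≠ j) :
    mult G {i, j} = ∑ k, eps G i j k := by
  unfold mult eps
  rw [← card_filter]
  have : ((univ : Finset (Finset V)).filter fun T => T.card = 3 ∧ G.sel T = {i, j}) =
      ((univ : Finset V).filter fun k => i ≠ j ∧ k ≠ i ∧ k ≠ j ∧ G.sel {i, j, k} = {i, j}).image
        (fun k => ({i, j, k} : Finset V)) := by
    ext T
    simp only [mem_filter, mem_univ, true_and, mem_image]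
    constructor
    · rintro ⟨hc, hs⟩
      have hsub := G.sel_subset T hc
      rw [hs] at hsub
      have hcard : (T \ {i, j}).card = 1 := by
        rw [card_sdiff_of_subset hsub, hc, card_pair hij]
      obtain ⟨k, hk⟩ := card_eq_one.mp hcard
      have hkT : k ∈ T \ {i, j} := by rw [hk]; simp
      have hT : T = {i, j, k} := by
        have : T = {i, j} ∪ (T \ {i, j}) := (union_sdiff_of_subset hsub).symm
        rw [this, hk]; ext v; simp
      simp only [mem_sdiff, mem_insert, mem_singleton, not_or] at hkT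
      refine ⟨k, ⟨hij, hkT.2.1, hkT.2.2, ?_⟩, hT.symm⟩
      rw [← hT, hs]
    · rintro ⟨k, ⟨_, h1, h2, h3⟩, rfl⟩
      refine ⟨?_, h3⟩
      rw [card_insert_of_notMem, card_pair h2.symm]
      simp only [mem_insert, mem_singleton, not_or]
      exact ⟨hij, h1.symm⟩
  rw [this, card_image_of_injOn]
  intro k hk l hl hkl
  simp only [coe_filter, mem_univ, true_and, Set.mem_ofPred_eq] at hk hl
  have : k ∈ ({i, j, l} : Finset V) := by
    have : ({i, j, k} : Finset V) = {i, j, l} := hkl
    rw [← this]; simp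
  simp only [mem_insert, mem_singleton] at this
  rcases this with h | h | h
  · exact absurd h hk.2.1
  · exact absurd h hk.2.2.1
  · exact h

theorem weight_eq [Fintype V] (G : TCM V) (α : ℝ) :
    weight G α = (1 / 2) * pw G α univ := by
  unfold weight pw
  rw [sum_pairs]
  congr 1
  refine sum_congr rfl fun i _ => sum_congr rfl fun j hj => ?_
  rw [mult_pair G i j (ne_of_mem_erase hj).symm]

/-- every triangular choice multigraph exists -/
theorem exists_tcm (V : Type*) [DecidableEq V] : Nonempty (TCM V) := by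
  classical
  have : ∀ T : Finset V, ∃ e : Finset V, T.card = 3 → e ⊆ T ∧ e.card = 2 := by
    intro T
    by_cases h : T.card = 3
    · obtain ⟨e, he, hc⟩ := exists_subset_card_eq (s := T) (n := 2) (by omega)
      exact ⟨e, fun _ => ⟨he, hc⟩⟩
    · exact ⟨∅, fun h' => absurd h' h⟩
  choose f hf using this
  exact ⟨⟨f, fun T hT => (hf T hT).1, fun T hT => (hf T hT).2⟩⟩

theorem twoRec_congr {G G' : TCM V} {S : Finset V} (hS : TwoRecursiveOn G S)
    (h : ∀ T ⊆ S, T.card = 3 → G'.sel T = G.sel T) : TwoRecursiveOn G' S := by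
  induction hS with
  | small S hS => exact .small S hS
  | split S₁ S₂ hne₁ hne₂ hdisj h₁ h₂ h₁₂ h₂₁ ih₁ ih₂ =>
    refine .split S₁ S₂ hne₁ hne₂ hdisj (ih₁ fun T hT => h T (hT.trans subset_union_left))
      (ih₂ fun T hT => h T (hT.trans subset_union_right)) ?_ ?_
    · intro x hx y hy hxy z hz
      rw [h, h₁₂ x hx y hy hxy z hz]
      · intro v hv
        simp only [mem_insert, mem_singleton] at hv
        rcases hv with rfl | rfl | rfl
        · exact mem_union_left _ hx
        · exact mem_union_left _ hy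
        · exact mem_union_right _ hz
      · rw [card_insert_of_notMem, card_pair]
        · rintro rfl; exact disjoint_left.mp hdisj hy hz
        · simp only [mem_insert, mem_singleton, not_or]
          exact ⟨hxy, by rintro rfl; exact disjoint_left.mp hdisj hx hz⟩
    · intro x hx y hy hxy z hz
      rw [h, h₂₁ x hx y hy hxy z hz]
      · intro v hv
        simp only [mem_insert, mem_singleton] at hv
        rcases hv with rfl | rfl | rfl
        · exact mem_union_right _ hx
        · exact mem_union_right _ hy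
        · exact mem_union_left _ hz
      · rw [card_insert_of_notMem, card_pair]
        · rintro rfl; exact disjoint_left.mp hdisj hz hy
        · simp only [mem_insert, mem_singleton, not_or]
          exact ⟨hxy, by rintro rfl; exact disjoint_left.mp hdisj hz hx⟩

/-- combine two structures on disjoint sets -/
def combine (G₁ G₂ : TCM V) (S₁ S₂ : Finset V) : TCM V where
  sel T := if T ⊆ S₁ then G₁.sel T else if T ⊆ S₂ then G₂.sel T
    else if (T ∩ S₁).card = 2 then T ∩ S₁ else if (T ∩ S₂).card = 2 then T ∩ S₂ else G₁.sel T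
  sel_subset := by
    intro T hT
    split_ifs
    · exact G₁.sel_subset T hT
    · exact G₂.sel_subset T hT
    · exact inter_subset_left
    · exact inter_subset_left
    · exact G₁.sel_subset T hT
  card_sel := by
    intro T hT
    split_ifs with h1 h2 h3 h4
    · exact G₁.card_sel T hT
    · exact G₂.card_sel T hT
    · exact h3
    · exact h4
    · exact G₁.card_sel T hT

/-- value of `pw` for a split structure -/
theorem pw_split (G G₁ G₂ : TCM V) (α : ℝ) (S₁ S₂ : Finset V) (hdisj : Disjoint S₁ S₂)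
    (c₁ : ∀ T ⊆ S₁, T.card = 3 → G.sel T = G₁.sel T)
    (c₂ : ∀ T ⊆ S₂, T.card = 3 → G.sel T = G₂.sel T)
    (h₁₂ : ∀ x ∈ S₁, ∀ y ∈ S₁, x ≠ y → ∀ z ∈ S₂, G.sel {x, y, z} = {x, y})
    (h₂₁ : ∀ x ∈ S₂, ∀ y ∈ S₂, x ≠ y → ∀ z ∈ S₁, G.sel {x, y, z} = {x, y}) :
    pw G α (S₁ ∪ S₂) = α ^ S₂.card * pw G₁ α S₁ + α ^ S₁.card * pw G₂ α S₂ +
      2 * S₁.card * S₂.card := by
  have hd : ∀ v, v ∈ S₁ → v ∈ S₂ → False := fun v h1 h2 => disjoint_left.mp hdisj h1 h2
  -- same side
  have same : ∀ (A B : Finset V) (G' : TCM V), Disjoint A B →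
      (∀ T ⊆ A, T.card = 3 → G.sel T = G'.sel T) →
      (∀ x ∈ A, ∀ y ∈ A, x ≠ y → ∀ z ∈ B, G.sel {x, y, z} = {x, y}) →
      ∀ i ∈ A, ∀ j ∈ A, i ≠ j → ∑ k ∈ A ∪ B, eps G i j k = ∑ k ∈ A, eps G' i j k + B.card := by
    intro A B G' hAB c hx i hi j hj hij
    rw [sum_union hAB]
    congr 1
    · refine sum_congr rfl fun k hk => ?_
      unfold eps
      by_cases h : k ≠ i ∧ k ≠ j
      · rw [c {i, j, k}]
        · intro v hv
          simp only [mem_insert, mem_singleton] at hv
          rcases hv with rfl | rfl | rfl <;> assumption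
        · rw [card_insert_of_notMem, card_pair h.2.symm]
          simp only [mem_insert, mem_singleton, not_or]
          exact ⟨hij, h.1.symm⟩
      · rw [if_neg, if_neg]
        · rintro ⟨_, a, b, _⟩; exact h ⟨a, b⟩
        · rintro ⟨_, a, b, _⟩; exact h ⟨a, b⟩
    · rw [card_eq_sum_ones]
      refine sum_congr rfl fun k hk => ?_
      unfold eps
      rw [if_pos]
      refine ⟨hij, ?_, ?_, hx i hi j hj hij k hk⟩
      · rintro rfl; exact disjoint_left.mp hAB hi hk
      · rintro rfl; exact disjoint_left.mp hAB hj hk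
  -- different sides
  have diff : ∀ i ∈ S₁, ∀ j ∈ S₂, ∑ k ∈ S₁ ∪ S₂, eps G i j k = 0 := by
    intro i hi j hj
    refine sum_eq_zero fun k hk => ?_
    unfold eps
    rw [if_neg]
    rintro ⟨a, b, c, e⟩
    rcases mem_union.mp hk with hk | hk
    · rw [pair_swap i j k, h₁₂ i hi k hk b.symm j hj] at e
      have : j ∈ ({i, k} : Finset V) := by rw [e]; simp
      simp only [mem_insert, mem_singleton] at this
      rcases this with h | h
      · exact a h.symm
      · exact c h.symm
    · rw [pair_rot i j k, h₂₁ j hj k hk c.symm i hi] at e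
      have : i ∈ ({j, k} : Finset V) := by rw [e]; simp
      simp only [mem_insert, mem_singleton] at this
      rcases this with h | h
      · exact a h
      · exact b h.symm
  unfold pw
  rw [sum_union hdisj]
  have e1 : ∀ i ∈ S₁, ∑ j ∈ (S₁ ∪ S₂).erase i, α ^ (∑ k ∈ S₁ ∪ S₂, eps G i j k) =
      α ^ S₂.card * (∑ j ∈ S₁.erase i, α ^ (∑ k ∈ S₁, eps G₁ i j k)) + S₂.card := by
    intro i hi
    have he : (S₁ ∪ S₂).erase i = S₁.erase i ∪ S₂ := by
      rw [erase_union_distrib, erase_eq_of_notMem (s := S₂) (fun h => hd i hi h)]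
    rw [he, sum_union (disjoint_of_subset_left (erase_subset _ _) hdisj), mul_sum]
    congr 1
    · refine sum_congr rfl fun j hj => ?_
      rw [same S₁ S₂ G₁ hdisj c₁ h₁₂ i hi j (mem_of_mem_erase hj) (ne_of_mem_erase hj).symm,
        pow_add, mul_comm]
    · rw [sum_congr rfl fun j hj => by rw [diff i hi j hj]]
      simp
  have e2 : ∀ i ∈ S₂, ∑ j ∈ (S₁ ∪ S₂).erase i, α ^ (∑ k ∈ S₁ ∪ S₂, eps G i j k) =
      α ^ S₁.card * (∑ j ∈ S₂.erase i, α ^ (∑ k ∈ S₂, eps G₂ i j k)) + S₁.card := by
    intro i hi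
    have he : (S₁ ∪ S₂).erase i = S₂.erase i ∪ S₁ := by
      rw [erase_union_distrib, erase_eq_of_notMem (s := S₁) (fun h => hd i h hi), union_comm]
    rw [he, sum_union (disjoint_of_subset_left (erase_subset _ _) hdisj.symm), mul_sum]
    congr 1
    · refine sum_congr rfl fun j hj => ?_
      rw [union_comm, same S₂ S₁ G₂ hdisj.symm c₂ h₂₁ i hi j (mem_of_mem_erase hj)
        (ne_of_mem_erase hj).symm, pow_add, mul_comm]
    · have : ∀ j ∈ S₁, α ^ (∑ k ∈ S₁ ∪ S₂, eps G i j k) = 1 := by
        intro j hj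
        have := diff j hj i hi
        rw [sum_congr rfl fun k _ => (eps_good G).symm i j k, this, pow_zero]
      rw [sum_congr rfl this]
      simp
  rw [sum_congr rfl e1, sum_congr rfl e2, sum_add_distrib, sum_add_distrib, ← mul_sum, ← mul_sum]
  simp only [sum_const, nsmul_eq_mul]
  ring

theorem exists_opt (α : ℝ) (h : ℕ → ℝ) (h0 : h 0 = 0) (h1 : h 1 = 0)
    (hat : ∀ n, 2 ≤ n → ∃ a b : ℕ, 1 ≤ a ∧ 1 ≤ b ∧ a + b = n ∧
      h n = α ^ b * h a + α ^ a * h b + (a : ℝ) * b) :
    ∀ n : ℕ, ∀ S : Finset V, S.card = n →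
      ∃ G : TCM V, TwoRecursiveOn G S ∧ pw G α S = 2 * h n := by
  intro n
  induction n using Nat.strong_induction_on with
  | _ n ih =>
    intro S hS
    by_cases hn : n < 2
    · obtain ⟨G⟩ := exists_tcm V
      refine ⟨G, .small S (by omega), ?_⟩
      have hh : h n = 0 := by
        interval_cases n
        · exact h0
        · exact h1
      rw [hh, mul_zero]
      unfold pw
      refine sum_eq_zero fun i hi => ?_
      have : S.erase i = ∅ := by
        rw [← card_eq_zero, card_erase_of_mem hi]; omega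
      rw [this, sum_empty]
    · push Not at hn
      obtain ⟨a, b, ha, hb, hab, hval⟩ := hat n hn
      obtain ⟨S₁, hS₁, hc₁⟩ := exists_subset_card_eq (s := S) (n := a) (by omega)
      set S₂ := S \ S₁ with hS₂
      have hc₂ : S₂.card = b := by rw [hS₂, card_sdiff_of_subset hS₁]; omega
      have hdisj : Disjoint S₁ S₂ := disjoint_sdiff
      have hun : S₁ ∪ S₂ = S := union_sdiff_of_subset hS₁
      obtain ⟨G₁, hG₁, hw₁⟩ := ih a (by omega) S₁ hc₁
      obtain ⟨G₂, hG₂, hw₂⟩ := ih b (by omega) S₂ hc₂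
      have hd : ∀ v, v ∈ S₁ → v ∈ S₂ → False := fun v h1 h2 => disjoint_left.mp hdisj h1 h2
      have c₁ : ∀ T ⊆ S₁, T.card = 3 → (combine G₁ G₂ S₁ S₂).sel T = G₁.sel T := by
        intro T hT _
        simp [combine, hT]
      have c₂ : ∀ T ⊆ S₂, T.card = 3 → (combine G₁ G₂ S₁ S₂).sel T = G₂.sel T := by
        intro T hT hc
        have : ¬ T ⊆ S₁ := by
          intro hT'
          have hne : T.Nonempty := by rw [← card_pos]; omega
          obtain ⟨v, hv⟩ := hne
          exact hd v (hT' hv) (hT hv)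
        simp [combine, hT, this]
      have h₁₂ : ∀ x ∈ S₁, ∀ y ∈ S₁, x ≠ y → ∀ z ∈ S₂,
          (combine G₁ G₂ S₁ S₂).sel {x, y, z} = {x, y} := by
        intro x hx y hy hxy z hz
        have a1 : ¬ ({x, y, z} : Finset V) ⊆ S₁ := fun h' => hd z (h' (by simp)) hz
        have a2 : ¬ ({x, y, z} : Finset V) ⊆ S₂ := fun h' => hd x hx (h' (by simp))
        have a3 : ({x, y, z} : Finset V) ∩ S₁ = {x, y} := by
          ext v
          simp only [mem_inter, mem_insert, mem_singleton]
          constructor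
          · rintro ⟨rfl | rfl | rfl, hv⟩
            · simp
            · simp
            · exact (hd _ hv hz).elim
          · rintro (rfl | rfl)
            · exact ⟨by simp, hx⟩
            · exact ⟨by simp, hy⟩
        simp only [combine]
        rw [if_neg a1, if_neg a2, a3, card_pair hxy, if_pos rfl]
      have h₂₁ : ∀ x ∈ S₂, ∀ y ∈ S₂, x ≠ y → ∀ z ∈ S₁,
          (combine G₁ G₂ S₁ S₂).sel {x, y, z} = {x, y} := by
        intro x hx y hy hxy z hz
        have a1 : ¬ ({x, y, z} : Finset V) ⊆ S₁ := fun h' => hd x (h' (by simp)) hx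
        have a2 : ¬ ({x, y, z} : Finset V) ⊆ S₂ := fun h' => hd z hz (h' (by simp))
        have a3 : ({x, y, z} : Finset V) ∩ S₂ = {x, y} := by
          ext v
          simp only [mem_inter, mem_insert, mem_singleton]
          constructor
          · rintro ⟨rfl | rfl | rfl, hv⟩
            · simp
            · simp
            · exact (hd _ hz hv).elim
          · rintro (rfl | rfl)
            · exact ⟨by simp, hx⟩
            · exact ⟨by simp, hy⟩
        have a4 : ({x, y, z} : Finset V) ∩ S₁ = {z} := by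
          ext v
          simp only [mem_inter, mem_insert, mem_singleton]
          constructor
          · rintro ⟨rfl | rfl | rfl, hv⟩
            · exact (hd _ hv hx).elim
            · exact (hd _ hv hy).elim
            · rfl
          · rintro rfl
            exact ⟨by simp, hz⟩
        simp only [combine]
        rw [if_neg a1, if_neg a2, a4, a3, card_singleton, if_neg (by norm_num), card_pair hxy,
          if_pos rfl]
      refine ⟨combine G₁ G₂ S₁ S₂, ?_, ?_⟩
      · rw [← hun]
        exact .split S₁ S₂ (by rw [← card_pos]; omega) (by rw [← card_pos]; omega) hdisj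
          (twoRec_congr hG₁ c₁) (twoRec_congr hG₂ c₂) h₁₂ h₂₁
      · rw [← hun, pw_split _ G₁ G₂ α S₁ S₂ hdisj c₁ c₂ h₁₂ h₂₁, hw₁, hw₂, hc₁, hc₂, hval]
        ring

/-- the optimal value -/
noncomputable def hval (α : ℝ) : ℕ → ℝ
  | 0 => 0
  | 1 => 0
  | (n + 2) => (Finset.univ : Finset (Fin (n + 1))).sup' ⟨0, mem_univ _⟩ fun k =>
      α ^ (n + 1 - k.1) * hval α (k.1 + 1) + α ^ (k.1 + 1) * hval α (n + 1 - k.1) +
        ((k.1 + 1 : ℕ) : ℝ) * ((n + 1 - k.1 : ℕ) : ℝ)
  decreasing_by
    all_goals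
      have := k.2
      omega

theorem hval_ge (α : ℝ) (a b : ℕ) (ha : 1 ≤ a) (hb : 1 ≤ b) :
    α ^ b * hval α a + α ^ a * hval α b + (a : ℝ) * b ≤ hval α (a + b) := by
  obtain ⟨a, rfl⟩ := Nat.exists_eq_add_of_le' ha
  obtain ⟨b, rfl⟩ := Nat.exists_eq_add_of_le' hb
  have e : a + 1 + (b + 1) = (a + b) + 2 := by ring
  rw [e, hval]
  have hk : a < a + b + 1 := by omega
  refine le_trans (le_of_eq ?_) (le_sup' _ (mem_univ (⟨a, hk⟩ : Fin (a + b + 1))))
  have : a + b + 1 - a = b + 1 := by omega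
  simp only [this]

theorem hval_attained (α : ℝ) (n : ℕ) (hn : 2 ≤ n) : ∃ a b : ℕ, 1 ≤ a ∧ 1 ≤ b ∧ a + b = n ∧
    hval α n = α ^ b * hval α a + α ^ a * hval α b + (a : ℝ) * b := by
  obtain ⟨n, rfl⟩ := Nat.exists_eq_add_of_le' hn
  obtain ⟨k, _, hk⟩ := exists_mem_eq_sup' (s := (Finset.univ : Finset (Fin (n + 1))))
    ⟨0, mem_univ _⟩ (fun k =>
      α ^ (n + 1 - k.1) * hval α (k.1 + 1) + α ^ (k.1 + 1) * hval α (n + 1 - k.1) +
        ((k.1 + 1 : ℕ) : ℝ) * ((n + 1 - k.1 : ℕ) : ℝ))
  have := k.2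
  refine ⟨k.1 + 1, n + 1 - k.1, by omega, by omega, by omega, ?_⟩
  rw [hval, hk]

theorem weight_le [Fintype V] (G : TCM V) {α : ℝ} (hα : 1 ≤ α) (h : ℕ → ℝ) (h0 : h 0 = 0)
    (h1 : h 1 = 0)
    (hh : ∀ a b : ℕ, 1 ≤ a → 1 ≤ b → α ^ b * h a + α ^ a * h b + (a : ℝ) * b ≤ h (a + b)) :
    weight G α ≤ h (Fintype.card V) := by
  rcases Nat.eq_zero_or_pos (Fintype.card V) with hV | hV
  · rw [hV, h0, weight_eq, pw]
    have : (univ : Finset V) = ∅ := by rw [← card_eq_zero, card_univ, hV]
    rw [this]; simp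
  · obtain ⟨n, hn⟩ := Nat.exists_eq_add_of_le' hV
    have := W_le hα (eps_good G) h hh n (univ : Finset V) (by rw [card_univ, hn])
      (fun _ => 1) (fun _ => 0) (fun _ _ => le_rfl) (fun _ _ => by rw [h1])
    rw [weight_eq]
    refine le_trans (le_of_eq ?_) (this.trans (le_of_eq ?_))
    · unfold W pw M
      simp
    · congr 1
      simp

theorem main (m : ℕ) {α : ℝ} (hα : 1 ≤ α) :
    ∃ G₂ : TCM (Fin m), TwoRecursiveOn G₂ univ ∧
      ∀ G : TCM (Fin m), weight G α ≤ weight G₂ α := by
  obtain ⟨G₂, hrec, hw⟩ := exists_opt α (hval α) (by rw [hval]) (by rw [hval]) (hval_attained α) m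
    (univ : Finset (Fin m)) (by simp)
  refine ⟨G₂, hrec, fun G => ?_⟩
  have h1 := weight_le G hα (hval α) (by rw [hval]) (by rw [hval]) (hval_ge α)
  rw [weight_eq G₂, hw]
  simpa using h1

theorem main_eq (m : ℕ) {α : ℝ} (hα : 1 ≤ α) :
    H m α = H₂ m α ∧ IsGreatest (weights m α) (H m α) ∧ IsGreatest (weights₂ m α) (H₂ m α) := by
  obtain ⟨G₂, hrec, hmax⟩ := main m hα
  have g1 : IsGreatest (weights m α) (weight G₂ α) :=
    ⟨⟨G₂, rfl⟩, by rintro _ ⟨G, rfl⟩; exact hmax G⟩
  have g2 : IsGreatest (weights₂ m α) (weight G₂ α) :=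
    ⟨⟨G₂, hrec, rfl⟩, by rintro _ ⟨G, _, rfl⟩; exact hmax G⟩
  have e1 : H m α = weight G₂ α := g1.csSup_eq
  have e2 : H₂ m α = weight G₂ α := g2.csSup_eq
  rw [e1, e2]
  exact ⟨rfl, g1, g2⟩

end Pool.Agent.W_MP_6dfbfb_co
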